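import Pool.Agent.V7H93.BS.E
import Pool.Agent.R499.Domb

set_option autoImplicit false

/-!
# The congruence modulo `p ^ 6` (Q1)

For every prime `p > 3`,
`∑_{n < p} (3 n² + n) / 16^n s_n ≡ - 4 p⁴ q + 6 p⁵ q²` modulo `p ^ 6`, `q = (2^(p-1) - 1) / p`.

By the closed form of the starting files the sum is `2 p³ (p - 1) 16^(1-p) Z`,
`Z = ∑_{k=1}^{p-1} C(p-1,k) C(p-2,k-1) Cat_k C(2(p-1-k),p-1-k)`, so that `Z` is needed modulo `p³`:
`Z ≡ 2 p q + 2 p² q + 5 p² q²`.  The terms `k = p - 1` and `k = (p-1)/2` are given by the congruences of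
Wolstenholme and Morley, and the terms `k` and `p - 1 - k` together give, with
`f_k = 1/k + 1/(k+1) - 2/(2k+1)`, up to multiples of `p³`,
`p (1 + p) f_k + p² (1/(k²(2k+1)) + f_k (2 O_{k+1} - 3 H_k))`, with harmonic numbers `H_k` and sums `O_k` of
the reciprocals of the first `k` odd numbers.
-/

namespace Pool.Agent.Results.MP_4af00a_nt.ModPSixH93

open Finset Pool.Agent.V7H93.BS

/-- `s_n = ∑_{k=0}^{n} C(n,k)^2 C(2k,k) C(2(n-k),n-k)`. -/
def s (n : ℕ) : ℕ :=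
  ∑ k ∈ range (n + 1), (n.choose k) ^ 2 * (2 * k).choose k * (2 * (n - k)).choose (n - k)

/-- the Fermat quotient `q_p(2) = (2^(p-1) - 1) / p` -/
def q (p : ℕ) : ℚ := (2 ^ (p - 1) - 1) / p

/-- `x ≡ y` modulo `p ^ j`: `x - y = p ^ j a / b` with integers `a` and `b`, `b` not divisible by `p`, that
is, the `p`-adic valuation of `x - y` is at least `j`. -/
def CongMod (p j : ℕ) (x y : ℚ) : Prop :=
  ∃ a b : ℤ, ¬ (p : ℤ) ∣ b ∧ x - y = (p : ℚ) ^ j * a / b

/-- the sum of the starting files -/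
lemma Z_eq (p : ℕ) (hp : 2 ≤ p) : Pool.Agent.R499.Domb.Z (p - 2) = ∑ b ∈ range (p - 1), tm p b := by
  unfold Pool.Agent.R499.Domb.Z tm
  rw [← Finset.Nat.sum_antidiagonal_swap, Finset.Nat.sum_antidiagonal_eq_sum_range_succ_mk,
    show (p - 2).succ = p - 1 by omega]
  refine sum_congr rfl fun b hb => ?_
  simp only [Prod.fst_swap, Prod.snd_swap]
  rw [show p - 2 + 1 = p - 1 by omega]

/-- **Q1.** -/
theorem result (p : ℕ) (hp : p.Prime) (hp3 : 3 < p) :
    CongMod p 6 (∑ n ∈ range p, (3 * (n : ℚ) ^ 2 + n) / 16 ^ n * s n)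
      (-4 * (p : ℚ) ^ 4 * q p + 6 * (p : ℚ) ^ 5 * q p ^ 2) := by
  haveI : Fact p.Prime := ⟨hp⟩
  -- Fermat
  obtain ⟨c, hc⟩ : ∃ c : ℤ, (2 : ℤ) ^ (p - 1) = 1 + p * c := by
    have h1 : (2 : ZMod p) ^ (p - 1) = 1 := ZMod.pow_card_sub_one_eq_one (two_ne hp3)
    have h2 : (((2 : ℤ) ^ (p - 1) - 1 : ℤ) : ZMod p) = 0 := by
      push_cast
      rw [h1]
      ring
    rw [ZMod.intCast_zmod_eq_zero_iff_dvd] at h2
    obtain ⟨c, hc⟩ := h2
    exact ⟨c, by linarith⟩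
  have hp0 : (p : ℚ) ≠ 0 := by
    have := hp.pos
    positivity
  have hq : q p = c := by
    unfold q
    have h1 : (2 : ℚ) ^ (p - 1) = 1 + p * c := by exact_mod_cast hc
    rw [h1]
    field_simp
    ring
  set Z : ℕ := Pool.Agent.R499.Domb.Z (p - 2) with hZ
  -- modulo `p ^ 3`
  have hR : (((2 * ((p : ℤ) - 1) * Z + (4 * p * c - 6 * p ^ 2 * c ^ 2) * 16 ^ (p - 1) : ℤ)) : ZMod (p ^ 3)) = 0 := by
    have h0 := pi3 (p := p)
    have hq2 : (2 : R p) ^ (p - 1) = 1 + pi p * ((c : ℤ) : R p) := by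
      have := congrArg (Int.cast : ℤ → R p) hc
      push_cast at this
      exact this
    have hz := Z_mod (p := p) hp3 ((c : ℤ) : R p) hq2
    rw [← Z_eq p hp.two_le, ← hZ] at hz
    have h16 : (16 : R p) ^ (p - 1) = (1 + pi p * ((c : ℤ) : R p)) ^ 4 := by
      rw [← hq2, ← pow_mul, mul_comm, pow_mul]
      norm_num
    push_cast
    rw [h16, hz]
    linear_combination (4 * (c : R p) + 10 * (c : R p) ^ 2 - 20 * pi p * (c : R p) ^ 4 -
      20 * (pi p) ^ 2 * (c : R p) ^ 5 - 6 * (pi p) ^ 3 * (c : R p) ^ 6) * h0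
  rw [ZMod.intCast_zmod_eq_zero_iff_dvd] at hR
  obtain ⟨a, ha⟩ := hR
  refine ⟨a, 16 ^ (p - 1), ?_, ?_⟩
  · intro hd
    have h1 : p ∣ 16 ^ (p - 1) := by exact_mod_cast hd
    have h2 := hp.dvd_of_dvd_pow h1
    have h3 : p ∣ 2 ^ 4 := by norm_num; exact h2
    have h4 := Nat.le_of_dvd (by norm_num) (hp.dvd_of_dvd_pow h3)
    omega
  · have hs : ∀ n, (s n : ℚ) = Pool.Agent.R499.Domb.s n := by
      intro n
      unfold s Pool.Agent.R499.Domb.s
      rw [← Finset.Nat.sum_antidiagonal_swap, Finset.Nat.sum_antidiagonal_eq_sum_range_succ_mk]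
      push_cast
      apply sum_congr rfl
      intro k hk
      rw [mem_range] at hk
      simp only [Prod.swap_prod_mk]
      unfold Pool.Agent.R499.Domb.t Pool.Agent.R499.Domb.c
      rw [show k + (n - k) = n by omega]
      rfl
    have hV := Pool.Agent.R499.Domb.V_eq_Z (p - 2)
    rw [show p - 2 + 2 = p by have := hp.two_le; omega, ← hZ, Nat.cast_sub hp.two_le] at hV
    have hS : ∑ n ∈ range p, (3 * (n : ℚ) ^ 2 + n) / 16 ^ n * s n = Pool.Agent.R499.Domb.V p / 16 ^ (p - 1) := by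
      unfold Pool.Agent.R499.Domb.V
      rw [sum_div]
      refine sum_congr rfl fun n hn => ?_
      rw [mem_range] at hn
      rw [hs, show (16 : ℚ) ^ (p - 1) = 16 ^ (p - 1 - n) * 16 ^ n by rw [← pow_add]; congr 1; omega]
      field_simp
    rw [hS, hV, hq]
    have ha' : 2 * ((p : ℚ) - 1) * Z + (4 * p * c - 6 * p ^ 2 * c ^ 2) * 16 ^ (p - 1) = p ^ 3 * a := by
      exact_mod_cast ha
    push_cast
    have h16 : (16 : ℚ) ^ (p - 1) ≠ 0 := by positivity
    field_simp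
    linear_combination (p : ℚ) ^ 3 * ha'

end Pool.Agent.Results.MP_4af00a_nt.ModPSixH93
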